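import Mathlib
import Pool.Agent.N108.ZZ.HH

set_option autoImplicit false

/-!
# The SHGH conjecture for all classes with `K D + k ≤ 5`

Any number `n ≥ 4` of general points, any degree and any multiplicities. For every class `D` at
least one of the following holds: `h⁰ (D) = max (0, χ)`; some `(-1)`-curve `C` has `C D ≤ -2`; or
`D = M + C 1 + … + C k` with pairwise disjoint `(-1)`-curves `C a`, `D C a = -1`, `M C a = 0`,
`K M = K D + k ≥ 6`, and finitely many quadratic transformations carry `M` to a standard class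
`(d'; w')` with the same `h⁰`, different from `max (0, χ)`, in which the sum of the multiplicities
`w' i ≥ 2` is at least `3 d' + 6`.

In particular `h⁰ (D) = max (0, χ)` for all `D` with `K D ≤ 5` and `D C ≥ 0` for all
`(-1)`-curves `C`.
-/

namespace Pool.Agent.Results.MP_70e04f_ag.CanonicalDegreeFive

open MvPolynomial Pool.Agent.TH167 Pool.Agent.TH167.SHDefs

/-- `h⁰ (D)` for the class `D = d H - ∑ w i E i`. -/
noncomputable def hZero {n : ℕ} (P : Fin n → Fin 2 → ℂ) (d : ℕ) (w : Fin n → ℕ) : ℤ :=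
  (Module.finrank ℂ ↥(sys P d w) : ℤ)

/-- The Euler characteristic. -/
def chi {n : ℕ} (d : ℕ) (w : Fin n → ℕ) : ℤ :=
  ((d + 2).choose 2 : ℤ) - ∑ i, ((w i + 1).choose 2 : ℤ)

/-- The class is standard. -/
def Standard {n : ℕ} (d : ℕ) (w : Fin n → ℕ) : Prop :=
  ∀ i j k : Fin n, i ≠ j → i ≠ k → j ≠ k → w i + w j + w k ≤ d

theorem special_of_ne {n : ℕ} {P : Fin n → Fin 2 → ℂ} {d : ℕ} {w : Fin n → ℕ} :
    hZero P d w ≠ max 0 (chi d w) ↔ Special P d w := by
  unfold hZero chi Special dimL virtdim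
  constructor
  · intro h h1
    apply h
    rcases le_total 0 (((d + 2).choose 2 : ℤ) - ∑ i, ((w i + 1).choose 2 : ℤ)) with h2 | h2
    · rw [max_eq_right h2]
      rw [max_eq_left (by linarith)] at h1
      linarith
    · rw [max_eq_left h2]
      rw [max_eq_right (by linarith)] at h1
      linarith
  · intro h h1
    apply h
    rcases le_total 0 (((d + 2).choose 2 : ℤ) - ∑ i, ((w i + 1).choose 2 : ℤ)) with h2 | h2
    · rw [max_eq_right h2] at h1
      rw [max_eq_left (by linarith)]
      linarith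
    · rw [max_eq_left h2] at h1
      rw [max_eq_right (by linarith)]
      linarith

theorem result (n : ℕ) (hn : 4 ≤ n) (d : ℕ) (w : Fin n → ℕ) :
    ∃ F : MvPolynomial (Fin n × Fin 2) ℂ, F ≠ 0 ∧
      ∀ P : Fin n → Fin 2 → ℂ, MvPolynomial.eval (fun ij : Fin n × Fin 2 => P ij.1 ij.2) F ≠ 0 →
        hZero P d w = max 0 (chi d w) ∨
        (∃ (G : MvPolynomial (Fin 3) ℂ) (e : ℕ) (u : Fin n → ℕ), MinusOne P G e u ∧
          inter d w e u ≤ -2) ∨
        ∃ (d'' : ℕ) (w'' : Fin n → ℕ) (k : ℕ) (G : Fin k → MvPolynomial (Fin 3) ℂ)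
          (e : Fin k → ℕ) (u : Fin k → Fin n → ℕ) (d' : ℕ) (w' : Fin n → ℕ),
          Decomp P d w d'' w'' G e u (fun _ => 1) ∧ 6 ≤ interK d w + k ∧
          Relation.ReflTransGen Quadratic (d'', w'') (d', w') ∧ Standard d' w' ∧
          hZero P d' w' = hZero P d w ∧ hZero P d' w' ≠ max 0 (chi d' w') ∧
          3 * d' + 6 ≤ ∑ i, if 2 ≤ w' i then w' i else 0 := by
  obtain ⟨r, rfl⟩ : ∃ r, n = r + 4 := ⟨n - 4, by omega⟩
  obtain ⟨F, hF, hF'⟩ := Pool.Agent.N108.ZZ.hh_zz d w
  refine ⟨F, hF, fun P hP => ?_⟩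
  by_cases hs : hZero P d w = max 0 (chi d w)
  · exact Or.inl hs
  right
  rcases hF' P hP (special_of_ne.1 hs) with
    h | ⟨d'', w'', k, C, e, u, N, d', w', h1, h2, h3, h4, h5, h6, h7⟩
  · exact Or.inl (SH.mspecial_curve h)
  · by_cases hN : ∃ a, 2 ≤ N a
    · left
      obtain ⟨a, ha⟩ := hN
      refine ⟨C a, e a, u a, h1.curve a, ?_⟩
      rw [SH.inter_eq, (SH.decomp_iff.1 h1).neg a]
      omega
    · right
      push Not at hN
      have hN1 : N = fun _ => 1 := by
        funext a
        have h8 := hN a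
        have h9 := h1.pos a
        omega
      subst hN1
      have h10 : hZero P d' w' = hZero P d w := by
        unfold dimL at h6
        unfold hZero
        linarith
      refine ⟨d'', w'', k, C, e, u, d', w', h1, ?_, h3, h4, h10, special_of_ne.2 h5, h7⟩
      have h8 := h7.trans (Pool.Agent.N108.ZZ.big_le w')
      have h9 : ((3 * d' + 6 : ℕ) : ℤ) ≤ ((∑ i, w' i : ℕ) : ℤ) := by exact_mod_cast h8
      push_cast at h9
      have h11 : (∑ _a : Fin k, ((1 : ℕ) : ℤ)) = k := by simp
      rw [h11] at h2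
      rw [← h2]
      unfold interK
      linarith

end Pool.Agent.Results.MP_70e04f_ag.CanonicalDegreeFive
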